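import Mathlib

/-!
# The boundedness locus of a McMullen-type family is near the cardioid (MP_9ed304_an, Q1)

For every `ε > 0` there is `N` such that `M_n` lies in the `ε`-neighbourhood of the limiting
cardioid for every `n ≥ N`.
-/

set_option autoImplicit false

open Complex

namespace Pool.Agent.Results.MP_9ed304_an.NearCardioid

/-- `|a|^(1/2n) e^(iψ/2n)`, where `ψ` is the principal argument of `a` -/
noncomputable def fixedPt (n : ℕ) (a : ℂ) : ℂ :=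
  ((‖a‖ ^ (1 / (2 * n) : ℝ) : ℝ) : ℂ) * exp (((arg a / (2 * n) : ℝ) : ℂ) * I)

/-- the principal square root of `a` -/
noncomputable def root (a : ℂ) : ℂ :=
  ((‖a‖ ^ (1 / 2 : ℝ) : ℝ) : ℂ) * exp (((arg a / 2 : ℝ) : ℂ) * I)

/-- `b = b_{n,0}(a)` -/
noncomputable def b (n : ℕ) (a : ℂ) : ℂ := fixedPt n a - 2 * root a

/-- the map `r_{n,a}(z) = z^n + a / z^n + b` on `ℂ ∖ {0}` -/
noncomputable def r (n : ℕ) (a z : ℂ) : ℂ := z ^ n + a / z ^ n + b n a

/-- the free critical value `v_- = b - 2 √a` -/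
noncomputable def vMinus (n : ℕ) (a : ℂ) : ℂ := b n a - 2 * root a

/-- `M_n`: the nonzero `a` such that the forward orbit of `v_-` under `r_{n,a}` is bounded (so it
never meets the pole `0`) -/
def M (n : ℕ) : Set ℂ :=
  {a | a ≠ 0 ∧ ∃ z : ℕ → ℂ, z 0 = vMinus n a ∧ (∀ k, z k ≠ 0) ∧ (∀ k, z (k + 1) = r n a (z k)) ∧
    ∃ B : ℝ, ∀ k, ‖z k‖ ≤ B}

/-- the limiting cardioid `{(1 + e^{iθ})² / 16}` -/
def cardioid : Set ℂ :=
  {a | ∃ θ : ℝ, 0 ≤ θ ∧ θ ≤ 2 * Real.pi ∧ a = (1 + exp (θ * I)) ^ 2 / 16}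

lemma norm_fixedPt (n : ℕ) (a : ℂ) : ‖fixedPt n a‖ = ‖a‖ ^ (1 / (2 * n) : ℝ) := by
  rw [fixedPt, norm_mul, norm_exp_ofReal_mul_I, mul_one, Complex.norm_real, Real.norm_eq_abs,
    abs_of_nonneg (by positivity)]

lemma norm_root (a : ℂ) : ‖root a‖ = ‖a‖ ^ (1 / 2 : ℝ) := by
  rw [root, norm_mul, norm_exp_ofReal_mul_I, mul_one, Complex.norm_real, Real.norm_eq_abs,
    abs_of_nonneg (by positivity)]

lemma norm_root_sq (a : ℂ) : ‖root a‖ ^ 2 = ‖a‖ := by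
  rw [norm_root, ← Real.rpow_natCast, ← Real.rpow_mul (norm_nonneg a)]
  norm_num

lemma root_sq (a : ℂ) : root a ^ 2 = a := by
  have h1 : ((‖a‖ ^ (1 / 2 : ℝ) : ℝ) : ℂ) ^ 2 = (‖a‖ : ℂ) := by
    rw [← ofReal_pow, ← Real.rpow_natCast, ← Real.rpow_mul (norm_nonneg a)]
    norm_num
  rw [root, mul_pow, h1, ← Complex.exp_nat_mul]
  have h2 : ((2 : ℕ) : ℂ) * (((arg a / 2 : ℝ) : ℂ) * I) = (arg a : ℂ) * I := by
    push_cast
    ring
  rw [h2]
  exact norm_mul_exp_arg_mul_I a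

lemma vMinus_eq (n : ℕ) (a : ℂ) : vMinus n a = fixedPt n a - 4 * root a := by
  rw [vMinus, b]; ring

/-- a point of the unit circle is on the cardioid after `w ↦ (1 + w)² / 16` -/
lemma mem_cardioid {w : ℂ} (hw : ‖w‖ = 1) : (1 + w) ^ 2 / 16 ∈ cardioid := by
  have h1 : w = exp (arg w * I) := by
    have := norm_mul_exp_arg_mul_I w
    rw [hw] at this
    simpa using this.symm
  rcases le_or_gt 0 (arg w) with h | h
  · exact ⟨arg w, h, by linarith [arg_le_pi w, Real.pi_pos], by rw [← h1]⟩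
  · refine ⟨arg w + 2 * Real.pi, by linarith [neg_pi_lt_arg w, Real.pi_pos], by linarith, ?_⟩
    have h2 : ((arg w + 2 * Real.pi : ℝ) : ℂ) * I = arg w * I + 2 * Real.pi * I := by
      push_cast; ring
    rw [h2, Complex.exp_add, exp_two_pi_mul_I, mul_one, ← h1]

/-- points far from the cardioid have `|1 - 4 √a|` far from one -/
lemma far_from_one {a : ℂ} {δ : ℝ} (hδ : 0 < δ) (hδ1 : δ ≤ 1)
    (h : ∀ s ∈ cardioid, δ ≤ dist a s) : δ ≤ |‖1 - 4 * root a‖ - 1| := by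
  by_contra hcon
  push Not at hcon
  set w : ℂ := 4 * root a - 1 with hw
  have hw' : ‖1 - 4 * root a‖ = ‖w‖ := by rw [hw, norm_sub_rev]
  rw [hw'] at hcon
  have hpos : 0 < ‖w‖ := by
    have := (abs_lt.1 hcon).1
    linarith
  have hle : ‖w‖ ≤ 2 := by
    have := (abs_lt.1 hcon).2
    linarith
  have hn : (‖w‖ : ℂ) ≠ 0 := by exact_mod_cast hpos.ne'
  set w' : ℂ := w / ‖w‖ with hw'def
  have hw'1 : ‖w'‖ = 1 := by
    rw [hw'def, norm_div, Complex.norm_real, norm_norm, div_self hpos.ne']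
  have h1 := h _ (mem_cardioid hw'1)
  have h2 : a = (1 + w) ^ 2 / 16 := by
    have := root_sq a
    rw [hw]
    linear_combination -this
  have h3 : ‖w - w'‖ = |‖w‖ - 1| := by
    have : w - w' = ((‖w‖ - 1 : ℝ) : ℂ) * w' := by
      rw [hw'def]
      push_cast
      field_simp
    rw [this, norm_mul, hw'1, mul_one, Complex.norm_real, Real.norm_eq_abs]
  have h4 : dist a ((1 + w') ^ 2 / 16) = ‖w - w'‖ * ‖2 + w + w'‖ / 16 := by
    rw [dist_eq_norm]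
    nth_rewrite 1 [h2]
    have : (1 + w) ^ 2 / 16 - (1 + w') ^ 2 / 16 = (w - w') * (2 + w + w') / 16 := by ring
    rw [this, norm_div, norm_mul]
    norm_num
  have h5 : ‖2 + w + w'‖ ≤ 5 := by
    calc ‖2 + w + w'‖ ≤ ‖(2 : ℂ)‖ + ‖w‖ + ‖w'‖ := norm_add₃_le
      _ ≤ 5 := by rw [hw'1, Complex.norm_ofNat]; linarith
  rw [h4, h3] at h1
  have h6 : |‖w‖ - 1| * ‖2 + w + w'‖ ≤ |‖w‖ - 1| * 5 := by gcongr
  have h7 := abs_nonneg (‖w‖ - 1)
  linarith

/-- an orbit which doubles its modulus beyond `L` is unbounded once it is beyond `L` -/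
lemma not_bounded {z : ℕ → ℂ} {L : ℝ} (hL : 0 < L) {k₀ : ℕ} (h0 : L ≤ ‖z k₀‖)
    (h : ∀ k, L ≤ ‖z k‖ → 2 * ‖z k‖ ≤ ‖z (k + 1)‖) : ¬ ∃ B : ℝ, ∀ k, ‖z k‖ ≤ B := by
  rintro ⟨B, hB⟩
  have h1 : ∀ j : ℕ, 2 ^ j * L ≤ ‖z (k₀ + j)‖ := by
    intro j
    induction j with
    | zero => simpa using h0
    | succ j ih =>
      have h2 : L ≤ ‖z (k₀ + j)‖ := by
        refine le_trans ?_ ih
        have : (1 : ℝ) ≤ 2 ^ j := one_le_pow₀ (by norm_num)
        nlinarith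
      have h3 := h _ h2
      rw [← add_assoc]
      rw [pow_succ]
      linarith
  obtain ⟨j, hj⟩ := pow_unbounded_of_one_lt (B / L) (by norm_num : (1 : ℝ) < 2)
  rw [div_lt_iff₀ hL] at hj
  have := h1 j
  have := hB (k₀ + j)
  linarith

lemma norm_r_ge (n : ℕ) (a z : ℂ) : ‖z‖ ^ n - ‖a‖ / ‖z‖ ^ n - ‖b n a‖ ≤ ‖r n a z‖ := by
  have h1 : ‖z ^ n‖ ≤ ‖r n a z‖ + ‖a / z ^ n‖ + ‖b n a‖ := by
    have : z ^ n = r n a z - a / z ^ n - b n a := by rw [r]; ring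
    calc ‖z ^ n‖ = ‖r n a z - a / z ^ n - b n a‖ := by rw [← this]
      _ ≤ ‖r n a z - a / z ^ n‖ + ‖b n a‖ := norm_sub_le _ _
      _ ≤ _ := by gcongr; exact norm_sub_le _ _
  rw [norm_div, norm_pow] at h1
  linarith

lemma norm_r_ge' (n : ℕ) (a z : ℂ) : ‖a‖ / ‖z‖ ^ n - ‖z‖ ^ n - ‖b n a‖ ≤ ‖r n a z‖ := by
  have h1 : ‖a / z ^ n‖ ≤ ‖r n a z‖ + ‖z ^ n‖ + ‖b n a‖ := by
    have : a / z ^ n = r n a z - z ^ n - b n a := by rw [r]; ring
    calc ‖a / z ^ n‖ = ‖r n a z - z ^ n - b n a‖ := by rw [← this]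
      _ ≤ ‖r n a z - z ^ n‖ + ‖b n a‖ := norm_sub_le _ _
      _ ≤ _ := by gcongr; exact norm_sub_le _ _
  rw [norm_div, norm_pow] at h1
  linarith

/-- parameters of modulus at least one are not in `M_n` -/
lemma norm_lt_one {n : ℕ} (hn : 3 ≤ n) {a : ℂ} (ha : a ∈ M n) : ‖a‖ < 1 := by
  by_contra hcon
  push Not at hcon
  obtain ⟨-, z, hz0, -, hz, hB⟩ := ha
  have hs : 1 ≤ ‖root a‖ := by
    rw [norm_root]
    exact Real.one_le_rpow hcon (by norm_num)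
  have hf : ‖fixedPt n a‖ ≤ ‖root a‖ := by
    rw [norm_root, norm_fixedPt]
    apply Real.rpow_le_rpow_of_exponent_le hcon
    have : (3 : ℝ) ≤ n := by exact_mod_cast hn
    rw [div_le_div_iff₀ (by positivity) (by positivity)]
    linarith
  have hb : ‖b n a‖ ≤ 3 * ‖root a‖ := by
    calc ‖b n a‖ ≤ ‖fixedPt n a‖ + ‖2 * root a‖ := norm_sub_le _ _
      _ ≤ 3 * ‖root a‖ := by rw [norm_mul, Complex.norm_ofNat]; linarith
  have hv : 3 * ‖root a‖ ≤ ‖vMinus n a‖ := by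
    have h1 : ‖4 * root a‖ ≤ ‖vMinus n a‖ + ‖fixedPt n a‖ := by
      have : 4 * root a = fixedPt n a - vMinus n a := by rw [vMinus_eq]; ring
      rw [this, add_comm]
      exact norm_sub_le _ _
    rw [norm_mul, Complex.norm_ofNat] at h1
    linarith
  refine not_bounded (L := 3 * ‖root a‖) (by linarith) (k₀ := 0) (by rwa [hz0]) ?_ hB
  intro k hk
  rw [hz]
  have h1 := norm_r_ge n a (z k)
  have h3 : 3 ≤ ‖z k‖ := by linarith
  have h4 : ‖z k‖ ^ 3 ≤ ‖z k‖ ^ n := pow_le_pow_right₀ (by linarith) hn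
  have h5 : 9 * ‖z k‖ ≤ ‖z k‖ ^ 3 := by nlinarith [mul_self_nonneg (‖z k‖ - 3)]
  have h6 : ‖a‖ / ‖z k‖ ^ n ≤ ‖z k‖ := by
    rw [div_le_iff₀ (by positivity), ← norm_root_sq a]
    have h7 : ‖root a‖ ≤ ‖z k‖ := by linarith
    have h8 : ‖root a‖ ^ 2 ≤ ‖z k‖ ^ 2 := by gcongr
    nlinarith
  linarith

/-- `|a|^(1/2n) e^(iψ/2n)` is close to one -/
lemma fixedPt_close {n : ℕ} (hn : 0 < n) {a : ℂ} (ha : a ≠ 0) {A : ℝ}
    (hA : |Real.log ‖a‖| + Real.pi ≤ A) (hAn : A ≤ 2 * n) :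
    ‖fixedPt n a - 1‖ ≤ A / n := by
  have hn' : (0 : ℝ) < n := by exact_mod_cast hn
  have hpos : 0 < ‖a‖ := norm_pos_iff.2 ha
  set x : ℂ := ((Real.log ‖a‖ / (2 * n) : ℝ) : ℂ) + ((arg a / (2 * n) : ℝ) : ℂ) * I with hx
  have h1 : fixedPt n a = exp x := by
    rw [hx, Complex.exp_add, fixedPt]
    congr 1
    rw [Real.rpow_def_of_pos hpos, Complex.ofReal_exp]
    congr 2
    ring
  have h2 : ‖x‖ ≤ A / (2 * n) := by
    calc ‖x‖ ≤ ‖((Real.log ‖a‖ / (2 * n) : ℝ) : ℂ)‖ + ‖((arg a / (2 * n) : ℝ) : ℂ) * I‖ :=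
          norm_add_le _ _
      _ = |Real.log ‖a‖| / (2 * n) + |arg a| / (2 * n) := by
          rw [norm_mul, Complex.norm_I, mul_one, Complex.norm_real, Complex.norm_real,
            Real.norm_eq_abs, Real.norm_eq_abs, abs_div, abs_div,
            abs_of_pos (by positivity : (0 : ℝ) < 2 * n)]
      _ = (|Real.log ‖a‖| + |arg a|) / (2 * n) := by ring
      _ ≤ A / (2 * n) := by
          gcongr
          linarith [abs_arg_le_pi a]
  have h3 : ‖x‖ ≤ 1 := h2.trans (by rw [div_le_one (by positivity)]; exact hAn)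
  rw [h1]
  calc ‖exp x - 1‖ ≤ 2 * ‖x‖ := Complex.norm_exp_sub_one_le h3
    _ ≤ 2 * (A / (2 * n)) := by gcongr
    _ = A / n := by field_simp

/-- For every `ε > 0` there is `N ≥ 3` such that for every `n ≥ N` the boundedness locus `M_n` is
contained in the open `ε`-neighbourhood of the limiting cardioid. -/
theorem result : ∀ ε : ℝ, 0 < ε → ∃ N : ℕ, 3 ≤ N ∧ ∀ n : ℕ, N ≤ n →
    ∀ a ∈ M n, ∃ s ∈ cardioid, dist a s < ε := by
  intro ε hε
  set δ : ℝ := min ε 1 with hδdef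
  have hδ : 0 < δ := lt_min hε one_pos
  have hδ1 : δ ≤ 1 := min_le_right _ _
  have hδε : δ ≤ ε := min_le_left _ _
  set A : ℝ := |Real.log δ| + Real.pi with hA
  have hA0 : 0 < A := by have := Real.pi_pos; positivity
  -- growth
  obtain ⟨N1, hN1⟩ := exists_nat_gt (2 * A / δ)
  obtain ⟨N2, hN2⟩ := pow_unbounded_of_one_lt (20 / δ) (by linarith : 1 < 1 + δ / 2)
  refine ⟨max 3 (max N1 N2), le_max_left _ _, fun n hn a ha => ?_⟩
  have hn3 : 3 ≤ n := (le_max_left _ _).trans hn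
  have hnN1 : N1 ≤ n := ((le_max_left _ _).trans (le_max_right _ _)).trans hn
  have hnN2 : N2 ≤ n := ((le_max_right _ _).trans (le_max_right _ _)).trans hn
  have ha1 := norm_lt_one hn3 ha
  obtain ⟨ha0, z, hz0, hzne, hz, hB⟩ := ha
  by_contra hcon
  push Not at hcon
  have hfar := far_from_one hδ hδ1 (fun s hs => hδε.trans (hcon s hs))
  have hpos : 0 < ‖a‖ := norm_pos_iff.2 ha0
  -- `0` is on the cardioid
  have haδ : δ ≤ ‖a‖ := by
    have h0 : (0 : ℂ) ∈ cardioid := by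
      have := mem_cardioid (w := -1) (by simp)
      simpa using this
    have := hcon 0 h0
    rw [dist_zero_right] at this
    linarith
  have hlog : |Real.log ‖a‖| + Real.pi ≤ A := by
    rw [hA, abs_of_nonpos (Real.log_nonpos hpos.le ha1.le),
      abs_of_nonpos (Real.log_nonpos hδ.le hδ1)]
    have := Real.log_le_log hδ haδ
    linarith
  have hn0 : (0 : ℝ) < n := by
    have : 0 < n := by omega
    exact_mod_cast this
  have hAn : 2 * A / δ < n := hN1.trans_le (by exact_mod_cast hnN1)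
  have hAn2 : A / n < δ / 2 := by
    rw [div_lt_iff₀ hδ] at hAn
    rw [div_lt_iff₀ hn0]
    linarith
  have hAn3 : A ≤ 2 * n := by
    rw [div_lt_iff₀ hδ] at hAn
    nlinarith
  have hclose := fixedPt_close (by omega) ha0 hlog hAn3
  have hroot1 : ‖root a‖ ≤ 1 := by
    rw [norm_root]
    exact Real.rpow_le_one hpos.le ha1.le (by norm_num)
  have hfix : ‖fixedPt n a‖ ≤ 2 := by
    calc ‖fixedPt n a‖ = ‖(fixedPt n a - 1) + 1‖ := by rw [sub_add_cancel]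
      _ ≤ ‖fixedPt n a - 1‖ + ‖(1 : ℂ)‖ := norm_add_le _ _
      _ ≤ 2 := by rw [norm_one]; linarith
  have hb : ‖b n a‖ ≤ 4 := by
    calc ‖b n a‖ ≤ ‖fixedPt n a‖ + ‖2 * root a‖ := norm_sub_le _ _
      _ ≤ 4 := by rw [norm_mul, Complex.norm_ofNat]; linarith
  have hv : |‖vMinus n a‖ - ‖1 - 4 * root a‖| < δ / 2 := by
    have h1 := abs_norm_sub_norm_le (vMinus n a) (1 - 4 * root a)
    have h2 : vMinus n a - (1 - 4 * root a) = fixedPt n a - 1 := by rw [vMinus_eq]; ring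
    rw [h2] at h1
    linarith
  -- growth of the power
  have hpow : 20 / δ < (1 + δ / 2) ^ n :=
    hN2.trans_le (pow_le_pow_right₀ (by linarith) hnN2)
  have h20 : 20 ≤ 20 / δ := by
    rw [le_div_iff₀ hδ]
    linarith
  -- escape
  have hesc : ∀ k, 5 ≤ ‖z k‖ → 2 * ‖z k‖ ≤ ‖z (k + 1)‖ := by
    intro k hk
    rw [hz]
    have h1 := norm_r_ge n a (z k)
    have h4 : ‖z k‖ ^ 3 ≤ ‖z k‖ ^ n := pow_le_pow_right₀ (by linarith) hn3
    have h5 : 25 * ‖z k‖ ≤ ‖z k‖ ^ 3 := by nlinarith [mul_self_nonneg (‖z k‖ - 5)]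
    have h6 : ‖a‖ / ‖z k‖ ^ n ≤ ‖z k‖ := by
      rw [div_le_iff₀ (by positivity)]
      nlinarith
    linarith
  have hz1 : 5 ≤ ‖z 1‖ := by
    have e1 : z 1 = r n a (vMinus n a) := by rw [← hz0]; exact hz 0
    rw [e1]
    have hvne : 0 < ‖vMinus n a‖ := by rw [← hz0]; exact norm_pos_iff.2 (hzne 0)
    rcases le_abs.1 hfar with h | h
    · -- large modulus
      have h1 : 1 + δ / 2 ≤ ‖vMinus n a‖ := by linarith [(abs_lt.1 hv).1]
      have h2 : (1 + δ / 2) ^ n ≤ ‖vMinus n a‖ ^ n := by gcongr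
      have h3 := norm_r_ge n a (vMinus n a)
      have h4 : ‖a‖ / ‖vMinus n a‖ ^ n ≤ 1 := by
        rw [div_le_one (by positivity)]
        linarith
      linarith
    · -- small modulus
      have h1 : ‖vMinus n a‖ ≤ 1 - δ / 2 := by linarith [(abs_lt.1 hv).2]
      have h2 : ‖vMinus n a‖ * (1 + δ / 2) ≤ 1 := by nlinarith
      have h3 : ‖vMinus n a‖ ^ n * (1 + δ / 2) ^ n ≤ 1 := by
        rw [← mul_pow]
        exact pow_le_one₀ (by positivity) h2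
      have h4 := norm_r_ge' n a (vMinus n a)
      have h5 : ‖vMinus n a‖ ^ n ≤ 1 := pow_le_one₀ hvne.le (by linarith)
      have h6 : 20 ≤ ‖a‖ / ‖vMinus n a‖ ^ n := by
        rw [le_div_iff₀ (by positivity)]
        have h7 : 0 < ‖vMinus n a‖ ^ n := by positivity
        have h8 : ‖vMinus n a‖ ^ n * (20 / δ) ≤ 1 := by nlinarith
        have h9 : ‖vMinus n a‖ ^ n * 20 ≤ δ := by
          have h10 : ‖vMinus n a‖ ^ n * (20 / δ) = ‖vMinus n a‖ ^ n * 20 / δ := by ring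
          rw [h10, div_le_one hδ] at h8
          exact h8
        linarith
      linarith
  exact not_bounded (by norm_num) hz1 hesc hB

end Pool.Agent.Results.MP_9ed304_an.NearCardioid
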